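import Pool.Agent.Helper95.HV.Stmts

/-!
# Row LOCY: the local quantity is bounded by the Coulomb energy
-/

set_option autoImplicit false

namespace Pool.Agent.Helper25.HV

open MeasureTheory Filter Pool.Agent.Helper95 Pool.Agent.Helper95.PW Pool.Agent.Helper95.LN
  Pool.Agent.Helper95.CF Pool.Agent.Helper95.HV

theorem locy_nr_cont : Continuous nr := by
  unfold nr
  fun_prop

theorem locy_nrs_meas {n M : ℕ} (X : Fin M → R3) (k : Fin n) (j : Fin M) :
    Measurable (fun x : Cf n => nr (x k - X j)) := by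
  have h : Continuous (fun x : Cf n => nr (x k - X j)) :=
    locy_nr_cont.comp ((continuous_apply k).sub continuous_const)
  exact h.measurable

theorem locy_near1_meas {n M : ℕ} (X : Fin M → R3) (b : ℝ) :
    Measurable (fun x : Cf n => ∑ k, near1 X b (x k)) := by
  unfold near1
  refine Finset.measurable_sum _ fun k _ => Finset.measurable_sum _ fun j _ => ?_
  exact Measurable.ite (measurableSet_lt (locy_nrs_meas X k j) measurable_const)
    ((locy_nrs_meas X k j).const_div 1) measurable_const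

theorem locy_near1_nonneg {n M : ℕ} (X : Fin M → R3) (b : ℝ) (x : Cf n) :
    0 ≤ ∑ k, near1 X b (x k) := by
  unfold near1
  refine Finset.sum_nonneg fun k _ => Finset.sum_nonneg fun j _ => ?_
  split_ifs
  · exact one_div_nonneg.2 (Real.sqrt_nonneg _)
  · exact le_rfl

theorem locy_near1_int (hI : ST_INTM) {n M : ℕ} (X : Fin M → R3) (b : ℝ) (u : Wf n) (hu : Sm u)
    (s) : Integrable (fun x : Cf n => (∑ k, near1 X b (x k)) * u s x ^ 2) := by
  obtain ⟨h1, -, -, -⟩ := hI n M X (fun _ => 1) (u s) (u s) (hu s).1 (hu s).2 (hu s).1 (hu s).2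
  refine h1.mono' ((locy_near1_meas X b).aestronglyMeasurable.mul
    ((hu s).1.continuous.pow 2).aestronglyMeasurable) (Eventually.of_forall fun x => ?_)
  have hn0 := locy_near1_nonneg X b x
  have hle : ∑ k, near1 X b (x k) ≤ ∑ k, pot X (fun _ => 1) (x k) := by
    unfold near1 pot
    refine Finset.sum_le_sum fun k _ => Finset.sum_le_sum fun j _ => ?_
    split_ifs
    · exact le_rfl
    · exact one_div_nonneg.2 (Real.sqrt_nonneg _)
  rw [Real.norm_of_nonneg (mul_nonneg hn0 (sq_nonneg _)), ← pow_two]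
  exact mul_le_mul_of_nonneg_right hle (sq_nonneg _)

theorem locy_cb : 0 ≤ cb := by
  unfold cb
  exact intervalIntegral.integral_nonneg (by norm_num) fun u _ => sq_nonneg _

theorem locy_kap : 0 ≤ kap := by
  unfold kap
  refine integral_nonneg fun y => ?_
  show 0 ≤ et 1 y
  unfold et
  have h1 : 0 ≤ nr y ^ 4 := pow_nonneg (Real.sqrt_nonneg _) 4
  exact div_nonneg (mul_nonneg zero_le_one (sq_nonneg _)) (mul_nonneg locy_cb h1)

theorem locy_Dn {n M : ℕ} (b : ℝ) (X : Fin M → R3) (Z : Fin M → ℝ) (x : Cf n) :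
    0 ≤ Dn b X Z x := by
  unfold Dn
  refine mul_nonneg (div_nonneg zero_le_one locy_kap) ?_
  exact integral_nonneg fun w => Finset.sum_nonneg fun i _ => sq_nonneg _

theorem locy_Rem (hK : ST_KK) {n M : ℕ} (b : ℝ) (hb : 0 < b) (X : Fin M → R3) (x : Cf n)
    (hx : Dist X x) : 0 ≤ Rem b x := by
  unfold Rem
  refine Finset.sum_nonneg fun k _ => Finset.sum_nonneg fun l _ => ?_
  split_ifs with h
  · have h1 := (hK b (x k - x l) hb).2.1 (hx.1 k l h.ne)
    linarith
  · exact le_rfl

theorem locy_n {d z : ℝ} {n M : ℕ} {X : Fin M → R3} {Z : Fin M → ℝ} (hD : Dat d z n X Z) :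
    (n : ℝ) ≤ z * M := by
  rw [← hD.nuc.2]
  calc ∑ j, Z j ≤ ∑ _j : Fin M, z := Finset.sum_le_sum fun j _ => hD.le j
    _ = z * M := by
      rw [Finset.sum_const, Finset.card_univ, Fintype.card_fin, nsmul_eq_mul, mul_comm]

/-- the pointwise bound -/
theorem locy_pt (h1 : ST_ES1X) {d z : ℝ} {n M : ℕ} {X : Fin M → R3}
    {Z : Fin M → ℝ} (hD : Dat d z n X Z) (x : Cf n) (hx : Dist X x) :
    1 / 2 * Dn (d / 8) X Z x + Rem (d / 8) x ≤
      Vc X Z x + 16 / d * (z ^ 2 * M) + z * ∑ k, near1 X d (x k) := by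
  have hd := hD.d0
  have hz : 0 ≤ z := by linarith [hD.z1]
  have h2 := h1 z d hz hd n M X Z x hD.sep hD.nuc hD.le hx
  have h3 : 8 * (1 + z) / d * n ≤ 16 / d * (z ^ 2 * M) := by
    have h4 : 8 * (1 + z) / d ≤ 16 / d * z := by
      rw [div_mul_eq_mul_div, div_le_div_iff_of_pos_right hd]
      linarith [hD.z1]
    calc 8 * (1 + z) / d * n ≤ 16 / d * z * n :=
          mul_le_mul_of_nonneg_right h4 (Nat.cast_nonneg n)
      _ ≤ 16 / d * z * (z * M) := mul_le_mul_of_nonneg_left (locy_n hD) (by positivity)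
      _ = 16 / d * (z ^ 2 * M) := by ring
  linarith

theorem locy_real (q C0 W S V D R : ℝ) (hq : 0 ≤ q) (hC0 : C0 = 2 * q + 3) (hW : 0 ≤ W)
    (hS : 0 ≤ S) (hD : 0 ≤ D) (hR : 0 ≤ R) (h : 1 / 2 * D + R ≤ V + q * W + S) :
    W + D + R + S ≤ C0 * (V + C0 * (W + S)) := by
  have e : C0 * (V + C0 * (W + S)) = C0 * (V + q * W + S) + C0 * (C0 - q) * W +
      C0 * (C0 - 1) * S := by ring
  have h0 : 0 ≤ V + q * W + S := by linarith
  have h1 : 2 * (V + q * W + S) ≤ C0 * (V + q * W + S) :=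
    mul_le_mul_of_nonneg_right (by linarith) h0
  have h2 : 1 * W ≤ C0 * (C0 - q) * W := by
    refine mul_le_mul_of_nonneg_right ?_ hW
    rw [hC0]
    nlinarith
  have h3 : 1 * S ≤ C0 * (C0 - 1) * S := by
    refine mul_le_mul_of_nonneg_right ?_ hS
    rw [hC0]
    nlinarith
  rw [e]
  linarith

theorem LOCY (h1 : ST_ES1X) (h2 : ST_KK) (h3 : ST_AED) (_h4 : ST_QHM) (h5 : ST_INTM) :
    ST_LOCY := by
  intro d hd hd1
  obtain ⟨q, hq⟩ : ∃ q : ℝ, q = 16 / d := ⟨_, rfl⟩
  have hq0 : 0 < q := by rw [hq]; positivity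
  obtain ⟨C0, hC0⟩ : ∃ C0 : ℝ, C0 = 2 * q + 3 := ⟨_, rfl⟩
  have hC00 : 0 < C0 := by linarith
  refine ⟨C0, 2 * C0, hC00, by linarith, ?_⟩
  intro z n M X Z hD
  have hz : 0 ≤ z := by linarith [hD.z1]
  have hW : 0 ≤ z ^ 2 * (M : ℝ) := by positivity
  refine ⟨fun x hx => ?_, fun u hu hsq => ?_⟩
  · have a1 := locy_Dn (d / 8) X Z x
    have a2 := locy_Rem h2 (d / 8) (by positivity) X x hx
    refine ⟨a1, a2, ?_⟩
    have a3 := locy_pt h1 hD x hx
    rw [← hq] at a3
    exact locy_real q C0 (z ^ 2 * M) (z * ∑ k, near1 X d (x k)) (Vc X Z x) _ _ hq0.le hC0 hW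
      (mul_nonneg hz (locy_near1_nonneg X d x)) a1 a2 a3
  · have hI := locy_near1_int h5 X d u hu
    have i1 : ∀ s, Integrable (fun x => (∑ k, pot X Z (x k)) * u s x ^ 2) := fun s =>
      (h5 n M X Z (u s) (u s) (hu s).1 (hu s).2 (hu s).1 (hu s).2).1.congr
        (Eventually.of_forall fun x => by simp only; ring)
    have i2 : ∀ s, Integrable (fun x => rep x * u s x ^ 2) := fun s =>
      (h5 n M X Z (u s) (u s) (hu s).1 (hu s).2 (hu s).1 (hu s).2).2.1.congr
        (Eventually.of_forall fun x => by simp only; ring)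
    have i3 : ∀ s, Integrable (fun x => u s x ^ 2) := fun s => by
      have i0 : Integrable (fun x => u s x * u s x) :=
        (((hu s).1.continuous).mul ((hu s).1.continuous)).integrable_of_hasCompactSupport
          (hu s).2.mul_left
      refine i0.congr (Eventually.of_forall fun x => ?_)
      simp only
      ring
    have iV : ∀ s, Integrable (fun x => Vc X Z x * u s x ^ 2) := fun s => by
      refine (((i2 s).sub (i1 s)).add ((i3 s).const_mul (nucR X Z))).congr
        (Eventually.of_forall fun x => ?_)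
      simp only [Pi.add_apply, Pi.sub_apply]
      unfold Vc
      ring
    -- the expectation with two constants
    have key : ∀ a b : ℝ, (∀ s, Integrable (fun x : Cf n =>
        (Vc X Z x + a * (z ^ 2 * M) + b * (z * ∑ k, near1 X d (x k))) * u s x ^ 2)) ∧
        ∑ s, ∫ x, (Vc X Z x + a * (z ^ 2 * M) + b * (z * ∑ k, near1 X d (x k))) * u s x ^ 2 =
        QM X Z u - kin u + nucR X Z * PW.sq u + a * (z ^ 2 * M) * PW.sq u +
          b * (z * one (near1 X d) u) := by
      intro a b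
      have t0 : ∀ (s) (x : Cf n), (Vc X Z x + a * (z ^ 2 * M) +
          b * (z * ∑ k, near1 X d (x k))) * u s x ^ 2 =
          ((rep x * u s x ^ 2 - (∑ k, pot X Z (x k)) * u s x ^ 2) +
            (nucR X Z + a * (z ^ 2 * M)) * u s x ^ 2) +
            b * z * ((∑ k, near1 X d (x k)) * u s x ^ 2) := by
        intro s x
        unfold Vc
        ring
      have j1 : ∀ s, Integrable (fun x => rep x * u s x ^ 2 -
          (∑ k, pot X Z (x k)) * u s x ^ 2) := fun s => (i2 s).sub (i1 s)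
      have j2 : ∀ s, Integrable (fun x => (rep x * u s x ^ 2 -
          (∑ k, pot X Z (x k)) * u s x ^ 2) + (nucR X Z + a * (z ^ 2 * M)) * u s x ^ 2) :=
        fun s => (j1 s).add ((i3 s).const_mul _)
      refine ⟨fun s => ?_, ?_⟩
      · simp only [t0]
        exact (j2 s).add ((hI s).const_mul _)
      · have e3 : QM X Z u - kin u = pair u - one (pot X Z) u := by
          unfold QM
          ring
        rw [e3]
        unfold pair one PW.sq
        have e4 : ∀ s, ∫ x, (Vc X Z x + a * (z ^ 2 * M) +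
            b * (z * ∑ k, near1 X d (x k))) * u s x ^ 2 =
            ((∫ x, rep x * u s x ^ 2) - ∫ x, (∑ k, pot X Z (x k)) * u s x ^ 2) +
            (nucR X Z + a * (z ^ 2 * M)) * (∫ x, u s x ^ 2) +
            b * z * ∫ x, (∑ k, near1 X d (x k)) * u s x ^ 2 := by
          intro s
          simp only [t0]
          rw [integral_add (j2 s) ((hI s).const_mul _), integral_add (j1 s)
            ((i3 s).const_mul _), integral_sub (i2 s) (i1 s), integral_const_mul,
            integral_const_mul]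
        rw [Finset.sum_congr rfl fun s _ => e4 s, Finset.sum_add_distrib,
          Finset.sum_add_distrib, Finset.sum_sub_distrib, ← Finset.mul_sum, ← Finset.mul_sum]
        ring
    have hO : 0 ≤ z * one (near1 X d) u := by
      refine mul_nonneg hz ?_
      unfold one
      exact Finset.sum_nonneg fun s _ => integral_nonneg fun x =>
        mul_nonneg (locy_near1_nonneg X d x) (sq_nonneg _)
    have hsq0 : 0 ≤ PW.sq u := by
      unfold PW.sq
      exact Finset.sum_nonneg fun s _ => integral_nonneg fun x => sq_nonneg _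
    -- positivity
    have hP : 0 ≤ QM X Z u - kin u + nucR X Z * PW.sq u + q * (z ^ 2 * M) * PW.sq u +
        1 * (z * one (near1 X d) u) := by
      rw [← (key q 1).2]
      refine Finset.sum_nonneg fun s _ => integral_nonneg_of_ae ?_
      filter_upwards [h3 n M X] with x hx
      have a1 := locy_Dn (d / 8) X Z x
      have a2 := locy_Rem h2 (d / 8) (by positivity) X x hx
      have a3 := locy_pt h1 hD x hx
      rw [← hq] at a3
      exact mul_nonneg (by linarith) (sq_nonneg _)
    obtain ⟨P, hPd⟩ : ∃ P : ℝ, P = QM X Z u - kin u + nucR X Z * PW.sq u := ⟨_, rfl⟩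
    obtain ⟨W, hWd⟩ : ∃ W : ℝ, W = z ^ 2 * (M : ℝ) := ⟨_, rfl⟩
    obtain ⟨O, hOd⟩ : ∃ O : ℝ, O = z * one (near1 X d) u := ⟨_, rfl⟩
    rw [← hPd, ← hWd, ← hOd] at hP
    rw [← hWd] at hW
    rw [← hOd] at hO
    have hWs : W * PW.sq u ≤ W * 2 := mul_le_mul_of_nonneg_left hsq hW
    have hWs0 : 0 ≤ W * PW.sq u := mul_nonneg hW hsq0
    have hP2 : -(2 * q * W + O) ≤ P := by
      have : q * (W * PW.sq u) ≤ q * (W * 2) := mul_le_mul_of_nonneg_left hWs hq0.le
      nlinarith
    have hYY : YY (2 * C0) d z X Z u = P + 2 * C0 * (W + O) := by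
      unfold YY
      rw [← hPd, ← hWd, ← hOd]
    have eI : ∀ (s) (x : Cf n), (Vc X Z x + C0 * (z ^ 2 * M + z * ∑ k, near1 X d (x k))) *
        u s x ^ 2 = (Vc X Z x + C0 * (z ^ 2 * M) + C0 * (z * ∑ k, near1 X d (x k))) *
        u s x ^ 2 := fun s x => by ring
    refine ⟨?_, fun s => ?_, ?_⟩
    · rw [hYY, hC0]
      nlinarith [mul_nonneg hq0.le hW, mul_nonneg hq0.le hO]
    · simp only [eI]
      exact (key C0 C0).1 s
    · simp only [eI]
      rw [(key C0 C0).2, ← hPd, ← hWd, ← hOd, hYY]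
      have e1 : C0 * (P + C0 * W * PW.sq u + C0 * O) =
          C0 * P + C0 ^ 2 * (W * PW.sq u) + C0 ^ 2 * O := by ring
      have e2 : 2 * C0 * (P + 2 * C0 * (W + O)) =
          C0 * P + C0 * (P + 2 * C0 * W + 2 * C0 * O) + C0 ^ 2 * (W * 2) + C0 ^ 2 * O +
            C0 ^ 2 * O := by ring
      have e3 : 0 ≤ P + 2 * C0 * W + 2 * C0 * O := by
        rw [hC0]
        nlinarith [mul_nonneg hq0.le hW, mul_nonneg hq0.le hO]
      have e4 := mul_nonneg hC00.le e3
      have e5 : C0 ^ 2 * (W * PW.sq u) ≤ C0 ^ 2 * (W * 2) :=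
        mul_le_mul_of_nonneg_left hWs (by positivity)
      have e6 : 0 ≤ C0 ^ 2 * O := by positivity
      rw [e1, e2]
      linarith

end Pool.Agent.Helper25.HV
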