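import Pool.Agent.Helper71.HV.Sub
import Pool.Agent.Helper53.LN.VIR

/-!
# Part VL of row V2R: virial of a field which vanishes near the nuclei
-/

set_option autoImplicit false

namespace Pool.Agent.Helper25.HV

open MeasureTheory Filter Pool.Agent.Helper95 Pool.Agent.Helper95.PW Pool.Agent.Helper95.LN
  Pool.Agent.Helper95.CF Pool.Agent.Helper95.HV
open Pool.Agent.Helper53.LN (sw sw_nonneg sw_le VIR_one VIR_le1 VIR_van na ea VIR_id VIR_b1
  VIR_b2 VIR_nr0 VIR_comp VIR_Dn)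

theorem vl_pd (i : Fin 3) (g : R3 → ℝ) : pd i (fun y => -g y) = fun y => -pd i g y := by
  funext y
  unfold pd
  rw [fderiv_fun_neg]
  rfl

theorem vl_vir {n M : ℕ} (X : Fin M → R3) (Z : Fin M → ℝ) (g : R3 → ℝ) (x : Cf n) :
    Vir X Z (fun y => -g y) x = -Vir X Z g x := by
  unfold Vir
  simp only [vl_pd]
  have e1 : ∀ k l : Fin n, (if k < l then (∑ m, (-pd m g (x k) - -pd m g (x l)) *
      (x k m - x l m)) / nr (x k - x l) ^ 3 else 0) = -(if k < l then
      (∑ m, (pd m g (x k) - pd m g (x l)) * (x k m - x l m)) / nr (x k - x l) ^ 3 else 0) := by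
    intro k l
    split_ifs
    · rw [← neg_div, ← Finset.sum_neg_distrib]
      congr 1
      exact Finset.sum_congr rfl fun m _ => by ring
    · simp
  have e2 : ∀ (k : Fin n) (j : Fin M), Z j * ((∑ m, -pd m g (x k) * (x k m - X j m)) /
      nr (x k - X j) ^ 3) = -(Z j * ((∑ m, pd m g (x k) * (x k m - X j m)) /
      nr (x k - X j) ^ 3)) := by
    intro k j
    have : ∑ m, -pd m g (x k) * (x k m - X j m) =
        -∑ m, pd m g (x k) * (x k m - X j m) := by
      rw [← Finset.sum_neg_distrib]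
      exact Finset.sum_congr rfl fun m _ => by ring
    rw [this]
    ring
  simp only [e1, e2, Finset.sum_neg_distrib]
  ring

theorem vl_hess {A : ℝ} (a : Fin 3 → Fin 3 → ℝ) (h : ∀ i l, |a i l| ≤ A) (ξ : Fin 3 → ℝ) :
    -(3 * A * ∑ i, ξ i ^ 2) ≤ ∑ i, ∑ l, a i l * ξ i * ξ l := by
  have h1 : ∀ i l, -(A * ((ξ i ^ 2 + ξ l ^ 2) / 2)) ≤ a i l * ξ i * ξ l := by
    intro i l
    have h2 : |a i l * ξ i * ξ l| ≤ A * ((ξ i ^ 2 + ξ l ^ 2) / 2) := by
      rw [mul_assoc, abs_mul]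
      refine mul_le_mul (h i l) ?_ (abs_nonneg _) ((abs_nonneg _).trans (h i l))
      rw [abs_le]
      constructor <;> nlinarith [sq_nonneg (ξ i + ξ l), sq_nonneg (ξ i - ξ l)]
    exact (abs_le.1 h2).1
  have h3 : ∑ i, ∑ l, -(A * ((ξ i ^ 2 + ξ l ^ 2) / 2)) ≤ ∑ i, ∑ l, a i l * ξ i * ξ l :=
    Finset.sum_le_sum fun i _ => Finset.sum_le_sum fun l _ => h1 i l
  refine le_trans (le_of_eq ?_) h3
  simp only [Fin.sum_univ_three]
  ring

/-- the own nucleus -/
theorem vl_b3 {n M : ℕ} {X : Fin M → R3} {z d A : ℝ} (hz : 0 ≤ z) (hd : 0 < d) (hA : 1 ≤ A)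
    (hS : Sep X d) {g : R3 → ℝ} {Z : Fin M → ℝ} (hZ0 : ∀ j, 0 ≤ Z j) (hZ : ∀ j, Z j ≤ z)
    (h1 : ∀ i y, |pd i g y| ≤ A) (h0 : ∀ j y, nr (y - X j) < d / 8 → ∀ i, pd i g y = 0)
    {x : Cf n} :
    ∑ i, ∑ k, sw X (3 / 2 * d) x i k * (Z i * na X g x k i) ≤
      192 * A / d ^ 2 * (z * n) := by
  have hna : ∀ i k, na X g x k i ≤ 192 * A / d ^ 2 := by
    intro i k
    by_cases h : nr (x k - X i) < d / 8
    · have : na X g x k i = 0 := by
        unfold na
        simp [h0 i (x k) h]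
      rw [this]
      positivity
    · push Not at h
      have hr : 0 < nr (x k - X i) := by linarith
      have h3 : na X g x k i ≤ 3 * A * (1 / nr (x k - X i) ^ 2) := by
        unfold na
        rw [div_le_iff₀ (by positivity)]
        have hm : ∀ m, pd m g (x k) * (x k m - X i m) ≤ A * nr (x k - X i) := by
          intro m
          refine le_trans (le_abs_self _) ?_
          rw [abs_mul]
          refine mul_le_mul (h1 _ _) ?_ (abs_nonneg _) (by linarith)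
          exact VIR_comp (x k - X i) m
        have e1 : 3 * A * (1 / nr (x k - X i) ^ 2) * nr (x k - X i) ^ 3 =
            3 * A * nr (x k - X i) := by
          field_simp
        rw [e1, Fin.sum_univ_three]
        linarith [hm 0, hm 1, hm 2]
      refine h3.trans ?_
      have h4 : 1 / nr (x k - X i) ^ 2 ≤ 64 / d ^ 2 := by
        rw [div_le_div_iff₀ (by positivity) (by positivity)]
        nlinarith
      calc 3 * A * (1 / nr (x k - X i) ^ 2) ≤ 3 * A * (64 / d ^ 2) :=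
            mul_le_mul_of_nonneg_left h4 (by linarith)
        _ = 192 * A / d ^ 2 := by ring
  have hP : 0 ≤ 192 * A / d ^ 2 := by positivity
  have key : ∀ i k, sw X (3 / 2 * d) x i k * (Z i * na X g x k i) ≤
      sw X (3 / 2 * d) x i k * (z * (192 * A / d ^ 2)) := by
    intro i k
    refine mul_le_mul_of_nonneg_left ?_ (sw_nonneg _ _ _ _ _)
    exact (mul_le_mul_of_nonneg_left (hna i k) (hZ0 i)).trans
      (mul_le_mul_of_nonneg_right (hZ i) hP)
  calc ∑ i, ∑ k, sw X (3 / 2 * d) x i k * (Z i * na X g x k i) ≤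
      ∑ i, ∑ k, sw X (3 / 2 * d) x i k * (z * (192 * A / d ^ 2)) :=
        Finset.sum_le_sum fun i _ => Finset.sum_le_sum fun k _ => key i k
    _ = ∑ k : Fin n, (∑ i, sw X (3 / 2 * d) x i k) * (z * (192 * A / d ^ 2)) := by
        rw [Finset.sum_comm]
        exact Finset.sum_congr rfl fun k _ => by rw [Finset.sum_mul]
    _ ≤ ∑ _k : Fin n, 1 * (z * (192 * A / d ^ 2)) :=
        Finset.sum_le_sum fun k _ =>
          mul_le_mul_of_nonneg_right (VIR_le1 hd hS x k) (mul_nonneg hz hP)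
    _ = 192 * A / d ^ 2 * (z * n) := by
        rw [Finset.sum_const, Finset.card_univ, Fintype.card_fin, nsmul_eq_mul]
        ring

theorem VL (h1 : ST_NBZ) (h2 : ST_FFZ) (h3 : ST_KK) : Pool.Agent.Helper71.HV.ST_VL := by
  intro d hd hd1 A hA
  obtain ⟨C2, hC2, k2⟩ := h1 d hd hd1
  obtain ⟨C3, hC3, k3⟩ := h2 d hd hd1
  have hA0 : (0 : ℝ) ≤ A := by linarith
  obtain ⟨C, hC⟩ : ∃ C : ℝ, C = 3 * A + 3 * A * (16 / d) * C2 + 3 / 2 * (3 * A) * (C3 + C2) +
    192 * A / d ^ 2 := ⟨_, rfl⟩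
  refine ⟨C, by rw [hC]; positivity, ?_⟩
  intro z n M X Z g x hD hg hout hA1 hA2 hv hx
  have hz : 0 ≤ z := by linarith [hD.z1]
  have q2 := k2 z n M X Z x hD
  obtain ⟨e, he, q3⟩ := k3 z n M X Z x hD
  have hgn : ContDiff ℝ (⊤ : ℕ∞) (fun y => -g y) := hg.neg
  have houtn : ∀ i y, (∀ j, d ≤ nr (y - X j)) → pd i (fun y => -g y) y = 0 := by
    intro i y h
    rw [vl_pd]
    show -pd i g y = 0
    rw [hout i y h, neg_zero]
  have hAn : ∀ i y, |pd i (fun y => -g y) y| ≤ 3 * A := by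
    intro i y
    rw [vl_pd]
    show |-pd i g y| ≤ 3 * A
    rw [abs_neg]
    linarith [hA1 i y]
  have hAn1 : ∀ i y, |pd i (fun y => -g y) y| ≤ A := by
    intro i y
    rw [vl_pd]
    show |-pd i g y| ≤ A
    rw [abs_neg]
    exact hA1 i y
  have hvn : ∀ j y, nr (y - X j) < d / 8 → ∀ i, pd i (fun y => -g y) y = 0 := by
    intro j y h i
    rw [vl_pd]
    show -pd i g y = 0
    rw [hv j y h i, neg_zero]
  have hHn : ∀ (y : R3) (ξ : Fin 3 → ℝ), -(3 * A * ∑ i, ξ i ^ 2) ≤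
      ∑ i, ∑ l, pd i (pd l (fun y => -g y)) y * ξ i * ξ l := by
    intro y ξ
    refine vl_hess (fun i l => pd i (pd l (fun y => -g y)) y) (fun i l => ?_) ξ
    show |pd i (pd l (fun y => -g y)) y| ≤ A
    rw [vl_pd, vl_pd]
    show |-pd i (pd l g) y| ≤ A
    rw [abs_neg]
    exact hA2 i l y
  have b1 := VIR_b1 h3 hd (by linarith : (1:ℝ) ≤ 3 * A) hD.sep hgn hHn hx
  have b2 := VIR_b2 hd (by linarith : (1:ℝ) ≤ 3 * A) hD.sep Z houtn hAn x he
  have b3 := vl_b3 (n := n) hz hd hA hD.sep (g := fun y => -g y) hD.nuc.1 hD.le hAn1 hvn (x := x)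
  have b4 := VIR_id hd hD.sep Z houtn x
  rw [vl_vir] at b4
  have hR : 0 ≤ Rem (d / 8) x := by
    unfold Rem
    refine Finset.sum_nonneg fun k _ => Finset.sum_nonneg fun l _ => ?_
    split_ifs with h
    · have := (h3 (d / 8) (x k - x l) (by positivity)).2.1 (hx.1 k l h.ne)
      linarith
    · exact le_rfl
  have hD0 : 0 ≤ Dn (d / 8) X Z x := VIR_Dn _ _ _ _
  have hN : 0 ≤ z * ∑ k, near1 X d (x k) := by
    refine mul_nonneg hz (Finset.sum_nonneg fun k _ => ?_)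
    unfold near1
    refine Finset.sum_nonneg fun j _ => ?_
    split_ifs
    · exact one_div_nonneg.2 (VIR_nr0 _)
    · exact le_rfl
  have hM : 0 ≤ z ^ 2 * (M : ℝ) := by positivity
  have hn : 0 ≤ z * (n : ℝ) := by positivity
  obtain ⟨Y, hY⟩ : ∃ Y : ℝ, Y = Loc d z X Z x + z * n := ⟨_, rfl⟩
  have hY2 : Y = z ^ 2 * M + Dn (d / 8) X Z x + Rem (d / 8) x + z * (∑ k, near1 X d (x k)) +
      z * n := by
    rw [hY]
    rfl
  have r1 : Rem (d / 8) x ≤ Y := by linarith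
  have r2 : z ^ 2 * M + Dn (d / 8) X Z x ≤ Y := by linarith
  have r3 : z * n ≤ Y := by linarith
  have r4 : ∑ i, cnt X (3 / 2 * d) x i ^ 2 ≤ C2 * Y :=
    q2.trans (mul_le_mul_of_nonneg_left r2 hC2.le)
  have r5 : ∑ i, e i ^ 2 ≤ C3 * Y := q3.trans (mul_le_mul_of_nonneg_left r2 hC3.le)
  have m1 := mul_le_mul_of_nonneg_left r1 (by linarith : 0 ≤ 3 * A)
  have m2 := mul_le_mul_of_nonneg_left r4 (by positivity : 0 ≤ 3 * A * (16 / d))
  have m3 := mul_le_mul_of_nonneg_left (add_le_add r5 r4)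
    (by positivity : 0 ≤ 3 / 2 * (3 * A))
  have m4 := mul_le_mul_of_nonneg_left r3 (by positivity : 0 ≤ 192 * A / d ^ 2)
  have hY0 : 0 ≤ Y := hM.trans (by linarith)
  rw [← hY]
  have hCY : C * Y = 3 * A * Y + 3 * A * (16 / d) * (C2 * Y) +
      3 / 2 * (3 * A) * (C3 * Y + C2 * Y) + 192 * A / d ^ 2 * Y := by
    rw [hC]
    ring
  have hCY0 : 0 ≤ C * Y := by
    rw [hC]
    positivity
  linarith

end Pool.Agent.Helper25.HV
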